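import Pool.Agent.Helper68X.Conv

/-!
MP_8daebb_an: order of contact of a stationary varifold with a minimal submanifold.

The definitions are in `Pool/Agent/Helper68X/Dfn.lean` and `Dfn2.lean`.
-/

namespace Pool.Agent.Results.MP_8daebb_an.ContactOrder

open MeasureTheory Set Filter Topology Metric Pool.Agent.Helper68X.Dfn
open scoped ENNReal

theorem result {N m : ℕ} (hm : 1 ≤ m) {U : Set (EuclideanSpace ℝ (Fin N))} (hU : IsOpen U)
    {μ : Measure (EuclideanSpace ℝ (Fin N))}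
    {T : EuclideanSpace ℝ (Fin N) → Submodule ℝ (EuclideanSpace ℝ (Fin N))}
    (hV : IsStationaryVarifold m U μ T) {θ : ℝ≥0∞} (hθ0 : θ ≠ 0) (hθ1 : θ ≠ ⊤)
    (hθ : ∀ᵐ x ∂(μ.restrict U), θ ≤ density m μ x)
    {M : Set (EuclideanSpace ℝ (Fin N))} (hM : IsMinimalSubmanifold m U M) :
    (∀ x₀ ∈ M, ∀ k : ℕ, upperDensity m μ Mᶜ x₀ < θ * (1 / 4) ^ (m + k + 2) →
      Contact m k μ T M x₀) ∧
    ∀ᵐ x₀ ∂(μ.restrict U), x₀ ∈ M → ∀ k : ℕ, Contact m k μ T M x₀ := by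
  have hV' := Pool.Agent.Helper68X.Conv.stat hV
  have hM' := Pool.Agent.Helper68X.Conv.sub hM
  have hB : ∀ x₀ ∈ M, ∀ k : ℕ, upperDensity m μ Mᶜ x₀ < θ * (1 / 4) ^ (m + k + 2) →
      Contact m k μ T M x₀ := fun x₀ hx₀ k hk => Pool.Agent.Helper68X.Conv.contact
        (Pool.Agent.Helper68V.Pub.contact_of hm hU hV' hθ0 hθ1 hθ hM' hx₀ hk)
  refine ⟨hB, ?_⟩
  filter_upwards [Pool.Agent.Helper68V.ae_upperDens_zero (Pool.Agent.Helper68V.Pub.toStat hV') hU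
    (Pool.Agent.Helper68V.Pub.measurable_M hU hM')] with x hx hxM k
  apply hB x hxM k
  have h1 : upperDensity m μ Mᶜ x = 0 := hx hxM
  rw [h1]
  exact ENNReal.mul_pos hθ0 (pow_ne_zero _ (by norm_num))

end Pool.Agent.Results.MP_8daebb_an.ContactOrder
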