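import Pool.Agent.Helper68X.Dfn
import Pool.Agent.Helper68X.Fin
import Pool.Agent.Helper68X.BOR
import Pool.Agent.Helper68X.AE

/-!
MP_8daebb_an: under the hypotheses of the question (the densities need not be integers) a stationary
varifold has infinite order of contact at `x₀` with a smooth graph over the tangent plane that is
minimal to infinite order at `x₀`; in particular this holds at almost every point of a stationary
integral varifold.

The definitions are in `Pool/Agent/Helper68X/Dfn.lean`.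
-/

namespace Pool.Agent.Results.MP_8daebb_an.InfiniteOrderContact

open MeasureTheory Set Pool.Agent.Helper68X.Dfn
open scoped ENNReal

theorem stat {N m : ℕ} {U : Set (EuclideanSpace ℝ (Fin N))}
    {μ : Measure (EuclideanSpace ℝ (Fin N))}
    {T : EuclideanSpace ℝ (Fin N) → Submodule ℝ (EuclideanSpace ℝ (Fin N))}
    (hV : IsStationaryVarifold m U μ T) : Pool.Agent.Helper68V.Pub.IsStationaryVarifold m U μ T :=
  ⟨hV.finite_compact, hV.measurable_plane, hV.dim_plane, hV.stationary⟩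

theorem contact {N m : ℕ} {μ : Measure (EuclideanSpace ℝ (Fin N))}
    {T : EuclideanSpace ℝ (Fin N) → Submodule ℝ (EuclideanSpace ℝ (Fin N))}
    {π : Submodule ℝ (EuclideanSpace ℝ (Fin N))} {x₀ : EuclideanSpace ℝ (Fin N)}
    (h : Pool.Agent.Helper68X.InfiniteContact m μ T π x₀) : InfiniteContact m μ T π x₀ := by
  obtain ⟨u, h1, h2, h3, h4, h5, h6⟩ := h
  refine ⟨u, ⟨h1, h2, h3, h4, h5⟩, fun K => ?_⟩
  obtain ⟨C, ρ, hρ, ha, hb, hc⟩ := h6 K
  exact ⟨⟨C, ρ, hρ, ha⟩, ⟨C, ρ, hρ, hb⟩, ⟨C, ρ, hρ, hc⟩⟩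

theorem result {N m : ℕ} (hm : 1 ≤ m) {U : Set (EuclideanSpace ℝ (Fin N))} (hU : IsOpen U)
    {μ : Measure (EuclideanSpace ℝ (Fin N))}
    {T : EuclideanSpace ℝ (Fin N) → Submodule ℝ (EuclideanSpace ℝ (Fin N))}
    (hV : IsStationaryVarifold m U μ T) :
    (∀ θ : ℝ≥0∞, θ ≠ 0 → θ ≠ ⊤ → (∀ᵐ x ∂(μ.restrict U), θ ≤ density m μ x) →
      ∀ x₀ ∈ U, x₀ ∈ μ.support → ∀ π, dim π = m → IsFlatTangent m μ x₀ π (density m μ x₀).toReal →
      upperDensity m μ {z | density m μ z ≠ density m μ x₀} x₀ = 0 →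
      InfiniteContact m μ T π x₀) ∧
    ((∀ᵐ x ∂(μ.restrict U), ∃ k : ℕ, 1 ≤ k ∧ density m μ x = k) →
      (∀ᵐ x ∂(μ.restrict U), IsFlatTangent m μ x (T x) (density m μ x).toReal) →
      ∀ᵐ x ∂(μ.restrict U), InfiniteContact m μ T (T x) x) :=
  ⟨fun _ hθ0 hθ1 hθ _ hx₀ hxs _ hπ hT hd =>
      contact (Pool.Agent.Helper68X.fin_point Pool.Agent.Helper68X.t_BOR hm hU (stat hV) hθ0 hθ1 hθ
        hx₀ hxs hπ hT hd),
    fun hθ hT => by
      filter_upwards [Pool.Agent.Helper68X.fin_ae Pool.Agent.Helper68X.t_BOR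
        Pool.Agent.Helper68X.t_AE hm hU (stat hV) hθ hT] with x hx
      exact contact hx⟩

end Pool.Agent.Results.MP_8daebb_an.InfiniteOrderContact
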