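import Pool.Agent.Helper68X.Conv

/-!
MP_8daebb_an: the case of Q1 in which the part of density `Θ(V,x₀)` lies in a minimal submanifold.

The definitions are in `Pool/Agent/Helper68X/Dfn.lean` and `Dfn2.lean`.
-/

namespace Pool.Agent.Results.MP_8daebb_an.MinimalSheet

open MeasureTheory Set Filter Topology Metric Pool.Agent.Helper68X.Dfn
open scoped ENNReal

theorem result {N m : ℕ} (hm : 1 ≤ m) {U : Set (EuclideanSpace ℝ (Fin N))} (hU : IsOpen U)
    {μ : Measure (EuclideanSpace ℝ (Fin N))}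
    {T : EuclideanSpace ℝ (Fin N) → Submodule ℝ (EuclideanSpace ℝ (Fin N))}
    (hV : IsStationaryVarifold m U μ T) {θ : ℝ≥0∞} (hθ0 : θ ≠ 0) (hθ1 : θ ≠ ⊤)
    (hθ : ∀ᵐ x ∂(μ.restrict U), θ ≤ density m μ x)
    {M : Set (EuclideanSpace ℝ (Fin N))} (hM : IsMinimalSubmanifold m U M)
    {x₀ : EuclideanSpace ℝ (Fin N)} (hx₀U : x₀ ∈ U) (hx₀ : x₀ ∈ μ.support)
    (h1 : upperDensity m μ {x | density m μ x ≠ density m μ x₀} x₀ = 0)
    (h2 : upperDensity m μ ({x | density m μ x = density m μ x₀} \ M) x₀ = 0) :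
    x₀ ∈ M ∧ ((∃ r : ℝ, 0 < r ∧ μ.support ∩ ball x₀ r = M ∩ ball x₀ r) ∨
      ((∀ k : ℕ, ∃ C ρ : ℝ, 0 < ρ ∧ ∀ z ∈ μ.support, dist z x₀ < ρ →
        infDist z M ≤ C * dist z x₀ ^ k) ∧
      ∃ r₁ : ℝ, 0 < r₁ ∧ ∀ r ∈ Ioc 0 r₁,
        ∃ y ∈ connectedComponentIn (closure (μ.support \ M) ∩ closedBall x₀ r) x₀,
          dist y x₀ = r)) := by
  have hV' := Pool.Agent.Helper68X.Conv.stat hV
  have hM' := Pool.Agent.Helper68X.Conv.sub hM
  have hS := Pool.Agent.Helper68V.Pub.toStat hV'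
  have hT := hV'.dim_plane
  have hd : Pool.Agent.TH337.VF.upperDens m μ Mᶜ x₀ = 0 := by
    apply Pool.Agent.Helper68V.upperDens_zero _ h1 h2
    intro x hx
    by_cases h : density m μ x = density m μ x₀
    · exact Or.inr ⟨h, hx⟩
    · exact Or.inl h
  have hxM := Pool.Agent.Helper68V.mem_of_dens hU hS (hM'.closed x₀ hx₀U) hθ0 hθ1 hθ hx₀U hx₀ hd
  obtain ⟨π, u, r, hG⟩ := hM'.graph x₀ hxM
  refine ⟨hxM, ?_⟩
  rcases Pool.Agent.Helper68V.dichotomy hm hU hS hT (Pool.Agent.Helper68V.Pub.toGraphAt hG) hx₀U hx₀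
    with h | h
  · exact Or.inl h
  · refine Or.inr ⟨fun k => ?_, h⟩
    rcases Nat.eq_zero_or_pos k with hk | hk
    · subst hk
      refine ⟨1, 1, one_pos, fun z _ hz1 => ?_⟩
      rw [pow_zero, mul_one]
      exact (infDist_le_dist_of_mem hxM).trans hz1.le
    · have h3 := (Pool.Agent.Helper68V.Pub.contact_of hm hU hV' hθ0 hθ1 hθ hM' hxM (k := k - 1) (by
        rw [hd]
        exact ENNReal.mul_pos hθ0 (pow_ne_zero _ (by norm_num)))).1
      rwa [Nat.sub_add_cancel hk] at h3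

end Pool.Agent.Results.MP_8daebb_an.MinimalSheet
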