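import Pool.Agent.Helper68X.Conv

/-!
MP_8daebb_an: the part of a stationary varifold off a minimal submanifold has no islands.

The definitions are in `Pool/Agent/Helper68X/Dfn.lean` and `Dfn2.lean`.
-/

namespace Pool.Agent.Results.MP_8daebb_an.NoIslands

open MeasureTheory Set Filter Topology Metric Pool.Agent.Helper68X.Dfn

theorem result {N m : ℕ} (hm : 1 ≤ m) {U : Set (EuclideanSpace ℝ (Fin N))} (hU : IsOpen U)
    {μ : Measure (EuclideanSpace ℝ (Fin N))}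
    {T : EuclideanSpace ℝ (Fin N) → Submodule ℝ (EuclideanSpace ℝ (Fin N))}
    (hV : IsStationaryVarifold m U μ T)
    {M : Set (EuclideanSpace ℝ (Fin N))} (hM : IsMinimalSubmanifold m U M)
    {x₀ : EuclideanSpace ℝ (Fin N)} (hx₀ : x₀ ∈ M) :
    ∃ r₁ : ℝ, 0 < r₁ ∧ ∀ r ∈ Ioc 0 r₁, ∀ G ⊆ (μ.support \ M) ∩ ball x₀ r,
      closure G ∩ (((μ.support \ M) ∩ ball x₀ r) \ G) = ∅ →
      G ∩ closure (((μ.support \ M) ∩ ball x₀ r) \ G) = ∅ →
      closure G ⊆ ball x₀ r → G = ∅ := by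
  have hV' := Pool.Agent.Helper68X.Conv.stat hV
  have hM' := Pool.Agent.Helper68X.Conv.sub hM
  obtain ⟨π, u, r, hG⟩ := hM'.graph x₀ hx₀
  obtain ⟨r₁, hr₁, h⟩ := Pool.Agent.Helper68V.islands hm hU (Pool.Agent.Helper68V.Pub.toStat hV')
    hV'.dim_plane (hM'.subset hx₀) (Pool.Agent.Helper68V.Pub.toGraphAt hG)
  exact ⟨r₁, hr₁, fun s hs => (h s hs).1⟩

end Pool.Agent.Results.MP_8daebb_an.NoIslands
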